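import Pool.Agent.Helper35.HSF.StF

/-!
# Module FLM of project HSF (MP_925021_gt): the limit point
-/

set_option autoImplicit false

namespace Helper72.HSF

open Helper35.HSF Helper35.MS Helper35.PI Helper35.PI2 Helper32.CL
open scoped ContDiff Manifold Topology ENNReal BigOperators
open MeasureTheory Set Filter

/-- A curve with speed at most `c / √(T - t)`. -/
private theorem speed {E : Type} [NormedAddCommGroup E] [NormedSpace ℝ E] (f f' : ℝ → E)
    (T a b c : ℝ) (hab : a ≤ b) (hbT : b < T)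
    (hf : ∀ t ∈ Icc a b, HasDerivAt f (f' t) t)
    (hc : ∀ t ∈ Icc a b, ‖f' t‖ ≤ c / Real.sqrt (T - t)) (hc0 : 0 ≤ c) :
    ‖f b - f a‖ ≤ 2 * c * Real.sqrt (T - a) := by
  have hder : ∀ t ∈ Icc a b, HasDerivAt
      (fun t => 2 * c * (Real.sqrt (T - a) - Real.sqrt (T - t))) (c / Real.sqrt (T - t)) t := by
    intro t ht
    have hpos : 0 < T - t := by linarith [ht.2]
    have h1 : HasDerivAt (fun t : ℝ => T - t) (-1) t := by
      simpa using (hasDerivAt_id t).const_sub T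
    have h2 := (h1.sqrt hpos.ne').const_sub (Real.sqrt (T - a))
    have h3 := h2.const_mul (2 * c)
    have h5 : Real.sqrt (T - t) ≠ 0 := (Real.sqrt_pos.2 hpos).ne'
    have h4 : 2 * c * (-(-1 / (2 * Real.sqrt (T - t)))) = c / Real.sqrt (T - t) := by
      field_simp
    rw [← h4]
    exact h3
  have h := image_norm_le_of_norm_deriv_right_le_deriv_boundary' (E := E)
    (f := fun t => f t - f a) (f' := f')
    (B := fun t => 2 * c * (Real.sqrt (T - a) - Real.sqrt (T - t)))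
    (B' := fun t => c / Real.sqrt (T - t)) (a := a) (b := b)
    (fun t ht => ((hf t ht).sub_const (f a)).continuousAt.continuousWithinAt)
    (fun t ht => ((hf t ⟨ht.1, ht.2.le⟩).sub_const (f a)).hasDerivWithinAt)
    (by simp)
    (fun t ht => (hder t ht).continuousAt.continuousWithinAt)
    (fun t ht => (hder t ⟨ht.1, ht.2.le⟩).hasDerivWithinAt)
    (fun t ht => hc t ⟨ht.1, ht.2.le⟩) (right_mem_Icc.2 hab)
  refine h.trans ?_
  have h0 : 0 ≤ Real.sqrt (T - b) := Real.sqrt_nonneg _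
  have h1 : 0 ≤ 2 * c := by linarith
  nlinarith [mul_nonneg h1 h0]

theorem hFLM (hTYI : StTYI) (hTHD : StTHD) (hFBS : StFBS) (hFZP : StFZP) (hEVF : StEVF)
    (hHTR : StHTR) (hSMF : StSMF) : StFLM := by
  intro n hn M _ _ _ _ _ _ T F ν ts ε hD
  have hn1 : 1 ≤ n := by omega
  have hfl := hD.fl
  have hI := hfl.mcf.toIsImmJ
  have hn0 : (0 : ℝ) < n := by exact_mod_cast hn1
  have hn2 : (2 : ℝ) ≤ n := by exact_mod_cast hn
  have hε := hD.ε0
  obtain ⟨C₀, hC0, hTY⟩ := hTYI n hn1 M T F ν ts ε hD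
  obtain ⟨C₁, α, hC1, hα0, hα1, hTH⟩ := hTHD n hn M T F ν ts ε hD
  obtain ⟨-, -, hE⟩ := hEVF n hn1 M (Ioo 0 T) F ν hfl
  have hJ : ∀ t ∈ Ico ts T, t ∈ Ioo 0 T := fun t ht => ⟨lt_of_lt_of_le hD.ts0.1 ht.1, ht.2⟩
  have hT0 : 0 < T := lt_trans hD.ts0.1 hD.ts0.2
  have hT1 : T ≤ 1 := by
    have := hD.T1
    nlinarith
  set R : ℝ := rr n T with hR
  have hR0 : 0 < R := by rw [hR]; unfold rr; linarith [hD.T1]
  have hrr : ∀ t ∈ Ico ts T, R ≤ rr n t := by
    intro t ht
    rw [hR]; unfold rr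
    have : 2 * (n : ℝ) * t ≤ 2 * n * T := by
      apply mul_le_mul_of_nonneg_left ht.2.le; positivity
    linarith
  -- the speed
  set D : ℝ := C₀ + n ^ 2 / R with hDd
  have hDp : 0 < D := by rw [hDd]; positivity
  set C₂ : ℝ := Real.sqrt D with hC2
  have hC2p : 0 < C₂ := Real.sqrt_pos.2 hDp
  have hsp : ∀ q, ∀ t ∈ Ico ts T, ‖HH (n := n) F q t‖ ≤ C₂ / Real.sqrt (T - t) := by
    intro q t ht
    have hs : 0 < T - t := by linarith [ht.2]
    have hs1 : T - t ≤ 1 := by linarith [(hJ t ht).1]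
    have h1 : ‖HH (n := n) F q t‖ ^ 2 = eN n F q t + n ^ 2 / rr n t := by unfold eN; ring
    have h2 : (T - t) * ‖HH (n := n) F q t‖ ^ 2 ≤ D := by
      rw [h1, mul_add]
      have h3 := (hTY t ht q).2
      have h4 : (n : ℝ) ^ 2 / rr n t ≤ n ^ 2 / R :=
        div_le_div_of_nonneg_left (by positivity) hR0 (hrr t ht)
      have h5 : 0 ≤ (n : ℝ) ^ 2 / rr n t := by
        have := lt_of_lt_of_le hR0 (hrr t ht)
        positivity
      have h6 : (T - t) * ((n : ℝ) ^ 2 / rr n t) ≤ 1 * ((n : ℝ) ^ 2 / rr n t) :=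
        mul_le_mul_of_nonneg_right hs1 h5
      rw [hDd]; linarith
    rw [le_div_iff₀ (Real.sqrt_pos.2 hs)]
    have h3 : (‖HH (n := n) F q t‖ * Real.sqrt (T - t)) ^ 2 ≤ D := by
      rw [mul_pow, Real.sq_sqrt hs.le]; linarith
    exact Real.le_sqrt_of_sq_le h3
  have hmv : ∀ q, ∀ t ∈ Ico ts T, ∀ t' ∈ Ico ts T, t ≤ t' →
      ‖F q t' - F q t‖ ≤ 2 * C₂ * Real.sqrt (T - t) := by
    intro q t ht t' ht' htt
    have hsub : ∀ τ ∈ Icc t t', τ ∈ Ico ts T := fun τ hτ =>
      ⟨le_trans ht.1 hτ.1, lt_of_le_of_lt hτ.2 ht'.2⟩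
    exact speed (fun τ => F q τ) (fun τ => HH (n := n) F q τ) T t t' C₂ htt ht'.2
      (fun τ hτ => hfl.mcf.flow q τ (hJ τ (hsub τ hτ))) (fun τ hτ => hsp q τ (hsub τ hτ)) hC2p.le
  -- a sequence of times
  set tk : ℕ → ℝ := fun k => T - (T - ts) / ((k : ℝ) + 1) with htk
  have hTs : 0 < T - ts := by linarith [hD.ts0.2]
  have htkI : ∀ k, tk k ∈ Ico ts T := by
    intro k
    have hk : (1 : ℝ) ≤ (k : ℝ) + 1 := by linarith [(Nat.cast_nonneg k : (0 : ℝ) ≤ k)]
    have h1 : 0 < (T - ts) / ((k : ℝ) + 1) := by positivity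
    have h2 : (T - ts) / ((k : ℝ) + 1) ≤ T - ts := div_le_self hTs.le hk
    constructor
    · simp only [htk]; linarith
    · simp only [htk]; linarith
  have htkm : ∀ k l, k ≤ l → tk k ≤ tk l := by
    intro k l hkl
    simp only [htk]
    have hk : (0 : ℝ) < (k : ℝ) + 1 := by positivity
    have hkl' : (k : ℝ) + 1 ≤ (l : ℝ) + 1 := by
      have : (k : ℝ) ≤ l := by exact_mod_cast hkl
      linarith
    have := div_le_div_of_nonneg_left hTs.le hk hkl'
    linarith
  have hlim0 : Tendsto (fun k : ℕ => (T - ts) / ((k : ℝ) + 1)) atTop (𝓝 0) := by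
    have h1 := tendsto_one_div_add_atTop_nhds_zero_nat (𝕜 := ℝ)
    have h2 := h1.const_mul (T - ts)
    simp only [mul_zero] at h2
    refine h2.congr fun k => ?_
    ring
  have htkT : Tendsto tk atTop (𝓝 T) := by
    have := hlim0.const_sub T
    simpa [htk] using this
  have hsq : Tendsto (fun k => Real.sqrt (T - tk k)) atTop (𝓝 0) := by
    have h1 : Tendsto (fun k => T - tk k) atTop (𝓝 0) := by
      have := htkT.const_sub T
      simpa using this
    have h2 := (Real.continuous_sqrt.tendsto 0).comp h1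
    rw [Real.sqrt_zero] at h2
    exact h2
  -- limits
  have hX : ∀ q, ∃ X : EE (n + 2), Tendsto (fun k => F q (tk k)) atTop (𝓝 X) := by
    intro q
    have hcs : CauchySeq (fun k => F q (tk k)) := by
      refine cauchySeq_of_le_tendsto_0 (fun N => 2 * C₂ * Real.sqrt (T - tk N)) ?_ ?_
      · intro k l N hk hl
        rw [dist_eq_norm]
        rcases le_total k l with h | h
        · rw [norm_sub_rev]
          refine (hmv q _ (htkI k) _ (htkI l) (htkm k l h)).trans ?_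
          have : Real.sqrt (T - tk k) ≤ Real.sqrt (T - tk N) :=
            Real.sqrt_le_sqrt (by linarith [htkm N k hk])
          exact mul_le_mul_of_nonneg_left this (by positivity)
        · refine (hmv q _ (htkI l) _ (htkI k) (htkm l k h)).trans ?_
          have : Real.sqrt (T - tk l) ≤ Real.sqrt (T - tk N) :=
            Real.sqrt_le_sqrt (by linarith [htkm N l hl])
          exact mul_le_mul_of_nonneg_left this (by positivity)
      · have := hsq.const_mul (2 * C₂)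
        simpa using this
    exact cauchySeq_tendsto_of_complete hcs
  choose X hX using hX
  have hXd : ∀ q, ∀ t ∈ Ico ts T, ‖F q t - X q‖ ≤ 2 * C₂ * Real.sqrt (T - t) := by
    intro q t ht
    have h1 : Tendsto (fun k => ‖F q (tk k) - F q t‖) atTop (𝓝 ‖X q - F q t‖) :=
      ((hX q).sub_const (F q t)).norm
    rw [norm_sub_rev]
    refine le_of_tendsto h1 ?_
    filter_upwards [(tendsto_order.1 htkT).1 t ht.2] with k hk
    exact hmv q t ht _ (htkI k) hk.le
  -- the limit is the same for all points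
  set C₃ : ℝ := 2 * n / ε * Real.sqrt C₀ with hC3
  have hdiam : ∀ q p, ∀ t ∈ Ico ts T, ‖F q t - F p t‖ ≤ C₃ * Real.sqrt (T - t) := by
    intro q p t ht
    have hs : 0 < T - t := by linarith [ht.2]
    obtain ⟨f1, f2, f3, f4, f5, f6, f7, f8, f9⟩ := hFBS n hn1 M T F ν ts ε hD t ht p q
    have hpos : 0 < Hs n F ν p t := lt_of_lt_of_le (by positivity) f1
    have he : eN n F p t = Hs n F ν p t ^ 2 := (hE p t (hJ t ht)).2.1
    have h1 := (hTY t ht p).1
    rw [he] at h1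
    have h2 : 1 ≤ (Real.sqrt C₀ * Real.sqrt (T - t)) * Hs n F ν p t := by
      have h3 : (1 : ℝ) ^ 2 ≤ ((Real.sqrt C₀ * Real.sqrt (T - t)) * Hs n F ν p t) ^ 2 := by
        rw [mul_pow, mul_pow, Real.sq_sqrt (by linarith), Real.sq_sqrt hs.le]
        linarith
      exact (pow_le_pow_iff_left₀ (by norm_num) (by positivity) (by norm_num)).1 h3
    have h3 : ‖F q t - F p t‖ * 1
        ≤ ‖F q t - F p t‖ * ((Real.sqrt C₀ * Real.sqrt (T - t)) * Hs n F ν p t) :=
      mul_le_mul_of_nonneg_left h2 (norm_nonneg _)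
    have h4 : (Real.sqrt C₀ * Real.sqrt (T - t)) * (‖F q t - F p t‖ * Hs n F ν p t)
        ≤ (Real.sqrt C₀ * Real.sqrt (T - t)) * (2 * n / ε) :=
      mul_le_mul_of_nonneg_left f5 (by positivity)
    rw [hC3]
    linarith
  obtain ⟨q₀⟩ := (inferInstance : Nonempty M)
  have hXX : ∀ q, X q = X q₀ := by
    intro q
    have h1 : ‖X q - X q₀‖ ≤ 0 := by
      have h2 : Tendsto (fun k => ‖F q (tk k) - F q₀ (tk k)‖) atTop (𝓝 ‖X q - X q₀‖) :=
        ((hX q).sub (hX q₀)).norm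
      have h3 : Tendsto (fun k => C₃ * Real.sqrt (T - tk k)) atTop (𝓝 0) := by
        have := hsq.const_mul C₃
        simpa using this
      exact le_of_tendsto_of_tendsto' h2 h3 fun k => hdiam q q₀ _ (htkI k)
    exact sub_eq_zero.1 (norm_le_zero_iff.1 h1)
  set x : EE (n + 2) := X q₀ with hx
  have hli : ∀ t ∈ Ico ts T, ∀ q, ‖F q t - x‖ ≤ 2 * C₂ * Real.sqrt (T - t) := by
    intro t ht q
    rw [← hXX q]
    exact hXd q t ht
  have hFx : ∀ q, Tendsto (fun k => F q (tk k)) atTop (𝓝 x) := by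
    intro q
    rw [← hXX q]
    exact hX q
  have hx2 : ‖x‖ ^ 2 = R := by
    have h1 : Tendsto (fun k => ‖F q₀ (tk k)‖ ^ 2) atTop (𝓝 (‖x‖ ^ 2)) := (hFx q₀).norm.pow 2
    have h2 : Tendsto (fun k => rr n (tk k)) atTop (𝓝 (rr n T)) := by
      unfold rr
      exact (htkT.const_mul (2 * (n : ℝ))).const_sub 1
    have h3 : (fun k => ‖F q₀ (tk k)‖ ^ 2) = fun k => rr n (tk k) := by
      funext k
      exact hfl.sph q₀ (tk k) (hJ _ (htkI k))
    rw [h3] at h1
    exact tendsto_nhds_unique h1 h2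
  -- the normals
  have hnx : ∀ t ∈ Ico ts T, ∀ q, 0 ≤ (inner ℝ (ν q t) x : ℝ) := by
    intro t₁ ht₁ q
    set a := ν q t₁ with ha
    have hst : ∀ y, 0 ≤ (inner ℝ (F y t₁) a : ℝ) := by
      intro y
      have h0 : (inner ℝ (F q t₁) a : ℝ) = 0 := hfl.Fν q t₁ (hJ t₁ ht₁)
      by_cases hy : F y t₁ = F q t₁
      · rw [hy, h0]
      · have hz : zch F ν q y t₁ ∈ ZS n F ν q t₁ := Or.inl ⟨y, hy, rfl⟩
        have h1 := hD.pos t₁ ht₁ q _ hz
        unfold zch at h1
        have h2 : 0 < ‖F y t₁ - F q t₁‖ ^ 2 := by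
          have : 0 < ‖F y t₁ - F q t₁‖ := norm_pos_iff.2 (sub_ne_zero.2 hy)
          positivity
        rw [le_div_iff₀ h2, inner_sub_left] at h1
        have h3 : 0 < ε * ‖F y t₁ - F q t₁‖ ^ 2 := by positivity
        have h4 : (inner ℝ (F q t₁) (ν q t₁) : ℝ) = 0 := h0
        rw [h4] at h1
        have h5 : (inner ℝ (F y t₁) a : ℝ) = inner ℝ (F y t₁) (ν q t₁) := rfl
        rw [h5]
        linarith
    have hlow : ∀ y, ∀ t₂ ∈ Ico t₁ T, 0 ≤ (inner ℝ (F y t₂) a : ℝ) := by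
      intro y t₂ ht₂
      have hη : ∀ η : ℝ, 0 < η → -(η * 2) ≤ (inner ℝ (F y t₂) a : ℝ) := by
        intro η hη
        obtain ⟨-, -, -, -, -, hsc, -, -⟩ := hSMF n (n + 2) M (Ioo 0 T) F hI
        have su0 : SmJ n (Ioo 0 T) (fun q t => (inner ℝ (F q t) a : ℝ)) := hsc a
        obtain ⟨-, -, -, p3⟩ := hHTR n (n + 2) M (Ioo 0 T) F hI _ _ su0 su0
        have cv : ContDiffOn ℝ ∞ (fun t : ℝ => η + η * (t - t₁)) (Ioo 0 T) :=
          (contDiff_const.add (contDiff_const.mul (contDiff_id.sub contDiff_const))).contDiffOn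
        obtain ⟨v1, v2⟩ := p3 _ cv
        obtain ⟨-, l1, -, -⟩ := hHTR n (n + 2) M (Ioo 0 T) F hI _ _ su0 v1
        obtain ⟨l2, l3⟩ := l1 (-1) (-1)
        have hsub : Icc t₁ t₂ ⊆ Ioo 0 T := fun t ht =>
          hJ t ⟨le_trans ht₁.1 ht.1, lt_of_le_of_lt ht.2 ht₂.2⟩
        have hfin := hFZP n (n + 2) M (Ioo 0 T) F hfl.mcf _ t₁ t₂ l2 hsub (by
          intro q'
          have := hst q'
          simp only [sub_self, mul_zero, add_zero]
          linarith) (by
          intro q' t ht _ _ _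
          have htJ : t ∈ Ioo 0 T := hsub ⟨ht.1.le, ht.2⟩
          rw [(l3 q' t htJ).2, (v2 q' t htJ).2, ((hE q' t htJ).2.2.2.2.2.2 a).1]
          have hder : deriv (fun t : ℝ => η + η * (t - t₁)) t = η := by
            have h1 : HasDerivAt (fun t : ℝ => η + η * (t - t₁)) (η * 1) t :=
              (((hasDerivAt_id t).sub_const t₁).const_mul η).const_add η
            rw [h1.deriv, mul_one]
          rw [hder]
          linarith) y t₂ ⟨ht₂.1, le_rfl⟩
        have h1 : η * (t₂ - t₁) ≤ η * 1 := by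
          apply mul_le_mul_of_nonneg_left _ hη.le
          have := (hJ t₁ ht₁).1
          linarith [ht₂.2]
        linarith
      by_contra hneg
      push Not at hneg
      have := hη (-(inner ℝ (F y t₂) a : ℝ) / 4) (by linarith)
      linarith
    have h1 : Tendsto (fun k => (inner ℝ (F q (tk k)) a : ℝ)) atTop (𝓝 (inner ℝ x a : ℝ)) :=
      (hFx q).inner tendsto_const_nhds
    have h2 : 0 ≤ (inner ℝ x a : ℝ) := by
      refine ge_of_tendsto h1 ?_
      filter_upwards [(tendsto_order.1 htkT).1 t₁ ht₁.2] with k hk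
      exact hlow q _ ⟨hk.le, (htkI k).2⟩
    rw [real_inner_comm]
    exact h2
  -- the new initial time
  set ts' : ℝ := max ts (T - R / (4 * D)) with hts'
  have h4D : 0 < R / (4 * D) := by positivity
  have hts1 : ts ≤ ts' := le_max_left _ _
  have hts2 : ts' < T := max_lt hD.ts0.2 (by linarith)
  have hsubI : ∀ t ∈ Ico ts' T, t ∈ Ico ts T := fun t ht => ⟨le_trans hts1 ht.1, ht.2⟩
  refine ⟨ts', x, 1 + C₀ + C₁ + 2 * C₂, α, ⟨hts1, hts2⟩, ?_⟩
  refine ⟨⟨hfl, hD.T1, ⟨lt_of_lt_of_le hD.ts0.1 hts1, hts2⟩, hD.ε0, hD.ε1,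
    fun t ht => hD.inj t (hsubI t ht), fun t ht => hD.pos t (hsubI t ht),
    fun t ht => hD.cmp t (hsubI t ht), hD.unb⟩, ?_, hα0, hα1, hx2, ?_, ?_, ?_, ?_, ?_, ?_⟩
  · linarith
  · intro t ht q
    have h1 := (hTY t (hsubI t ht) q).1
    have h2 : 0 < (T - t) * eN n F q t := by
      by_contra hneg
      push Not at hneg
      nlinarith
    nlinarith
  · intro t ht q
    have h1 := (hTY t (hsubI t ht) q).2
    linarith
  · intro t ht q
    have h1 := hTH t (hsubI t ht) q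
    have h2 : 0 ≤ (T - t) ^ (α - 1) := Real.rpow_nonneg (by linarith [ht.2]) _
    refine h1.trans (mul_le_mul_of_nonneg_right ?_ h2)
    linarith
  · intro t ht q
    refine (hli t (hsubI t ht) q).trans (mul_le_mul_of_nonneg_right ?_ (Real.sqrt_nonneg _))
    linarith
  · intro t ht q
    exact hnx t (hsubI t ht) q
  · intro t ht q
    have hs : 0 ≤ T - t := by linarith [ht.2]
    have h1 := hli t (hsubI t ht) q
    have h2 : ‖F q t - x‖ ^ 2 ≤ (2 * C₂ * Real.sqrt (T - t)) ^ 2 :=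
      pow_le_pow_left₀ (norm_nonneg _) h1 2
    have h3 : (2 * C₂ * Real.sqrt (T - t)) ^ 2 = 4 * D * (T - t) := by
      rw [mul_pow, mul_pow, Real.sq_sqrt hs, hC2, Real.sq_sqrt hDp.le]
      ring
    have h4 : T - t ≤ R / (4 * D) := by
      have := le_trans (le_max_right ts (T - R / (4 * D))) ht.1
      linarith
    have h5 : 4 * D * (T - t) ≤ R := by
      rw [le_div_iff₀ (by positivity)] at h4
      linarith
    have h6 : ‖F q t - x‖ ^ 2 = ‖F q t‖ ^ 2 - 2 * inner ℝ (F q t) x + ‖x‖ ^ 2 :=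
      norm_sub_sq_real _ _
    have h7 : ‖F q t‖ ^ 2 = rr n t := hfl.sph q t (hJ t (hsubI t ht))
    have h8 := hrr t (hsubI t ht)
    rw [hx2, h7] at h6
    linarith

end Helper72.HSF
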