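import Pool.Agent.Helper35.HSF.StC

/-!
# Module FLX of project HSF (MP_925021_gt): the flux identity
-/

set_option autoImplicit false

namespace Helper72.HSF

open Helper35.HSF Helper35.MS Helper35.PI Helper35.PI2 Helper32.CL
open scoped ContDiff Manifold Topology ENNReal BigOperators
open MeasureTheory Set Filter

section Gen

variable {E : Type} [NormedAddCommGroup E] [InnerProductSpace ℝ E]

private noncomputable def x1 (b e p : E) : ℝ := (inner ℝ p e : ℝ) / inner ℝ p b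

private noncomputable def s1 (a b e p : E) : ℝ :=
  (‖p‖ ^ 2 - (inner ℝ p a : ℝ) ^ 2 - (inner ℝ p b : ℝ) ^ 2 - (inner ℝ p e : ℝ) ^ 2)
    / (inner ℝ p b : ℝ) ^ 2

private noncomputable def phi (n : ℕ) (Ψ : ℝ × ℝ → ℝ) (a b e p : E) : ℝ :=
  Ψ (x1 b e p, s1 a b e p) / (inner ℝ p b : ℝ) ^ n

private theorem phi_smooth (n : ℕ) (Ψ : ℝ × ℝ → ℝ) (hΨ : ContDiff ℝ ∞ Ψ) (a b e p : E)
    (hp : 0 < (inner ℝ p b : ℝ)) : ContDiffAt ℝ ∞ (phi n Ψ a b e) p := by
  have hi : ∀ c : E, ContDiffAt ℝ ∞ (fun p : E => (inner ℝ p c : ℝ)) p := fun c =>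
    contDiffAt_id.inner ℝ contDiffAt_const
  have hx : ContDiffAt ℝ ∞ (x1 b e) p := (hi e).div (hi b) hp.ne'
  have hs : ContDiffAt ℝ ∞ (s1 a b e) p := by
    refine ContDiffAt.div ?_ ((hi b).pow 2) (pow_ne_zero 2 hp.ne')
    exact (((contDiffAt_id.norm_sq ℝ).sub ((hi a).pow 2)).sub ((hi b).pow 2)).sub ((hi e).pow 2)
  refine ContDiffAt.div ?_ ((hi b).pow n) (pow_ne_zero n hp.ne')
  exact ContDiffAt.comp p (hΨ.contDiffAt) (hx.prodMk hs)

private theorem phi_euler (n : ℕ) (Ψ : ℝ × ℝ → ℝ) (hΨ : ContDiff ℝ ∞ Ψ) (a b e p : E)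
    (hp : 0 < (inner ℝ p b : ℝ)) :
    fderiv ℝ (phi n Ψ a b e) p p = -(n * phi n Ψ a b e p) := by
  have hd : DifferentiableAt ℝ (phi n Ψ a b e) p :=
    (phi_smooth n Ψ hΨ a b e p hp).differentiableAt (by simp)
  rw [← hd.lineDeriv_eq_fderiv, lineDeriv]
  have hev : (fun t : ℝ => phi n Ψ a b e (p + t • p)) =ᶠ[𝓝 0]
      fun t : ℝ => phi n Ψ a b e p / (1 + t) ^ n := by
    have h1 : ∀ᶠ t : ℝ in 𝓝 0, -1 < t := lt_mem_nhds (by norm_num)
    filter_upwards [h1] with t ht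
    have ht0 : (1 + t : ℝ) ≠ 0 := by linarith
    have hpt : p + t • p = (1 + t) • p := by rw [add_smul, one_smul]
    have hb := hp.ne'
    have hx : x1 b e (p + t • p) = x1 b e p := by
      unfold x1
      rw [hpt, real_inner_smul_left, real_inner_smul_left]
      field_simp
    have hs : s1 a b e (p + t • p) = s1 a b e p := by
      unfold s1
      rw [hpt, real_inner_smul_left, real_inner_smul_left, real_inner_smul_left, norm_smul,
        mul_pow, Real.norm_eq_abs, sq_abs]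
      field_simp
    unfold phi
    rw [hx, hs, hpt, real_inner_smul_left, mul_pow]
    field_simp
  rw [hev.deriv_eq]
  have h2 : HasDerivAt (fun t : ℝ => phi n Ψ a b e p / (1 + t) ^ n)
      (-(n * phi n Ψ a b e p)) 0 := by
    have h3 : HasDerivAt (fun t : ℝ => (1 + t) ^ n) (n * (1 + 0) ^ (n - 1) * 1) 0 :=
      ((hasDerivAt_id (0 : ℝ)).const_add 1).pow n
    have h4 := (hasDerivAt_const (0 : ℝ) (phi n Ψ a b e p)).div h3 (by simp)
    have h5 : (0 * (1 + (0 : ℝ)) ^ n - phi n Ψ a b e p * (n * (1 + 0) ^ (n - 1) * 1))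
        / ((1 + 0) ^ n) ^ 2 = -(n * phi n Ψ a b e p) := by
      simp only [add_zero, one_pow, mul_one, zero_sub, div_one]
      ring
    rw [← h5]
    exact h4
  exact h2.deriv

private theorem phi_a (n : ℕ) (Ψ : ℝ × ℝ → ℝ) (hΨ : ContDiff ℝ ∞ Ψ) (a b e p : E)
    (ha : ‖a‖ = 1) (hab : (inner ℝ a b : ℝ) = 0) (hae : (inner ℝ a e : ℝ) = 0)
    (hp : 0 < (inner ℝ p b : ℝ)) :
    fderiv ℝ (phi n Ψ a b e) p a = 0 := by
  have hd : DifferentiableAt ℝ (phi n Ψ a b e) p :=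
    (phi_smooth n Ψ hΨ a b e p hp).differentiableAt (by simp)
  rw [← hd.lineDeriv_eq_fderiv, lineDeriv]
  have haa : (inner ℝ a a : ℝ) = 1 := by rw [real_inner_self_eq_norm_sq, ha]; norm_num
  have hev : (fun t : ℝ => phi n Ψ a b e (p + t • a)) = fun _ => phi n Ψ a b e p := by
    funext t
    have h1 : (inner ℝ (p + t • a) b : ℝ) = inner ℝ p b := by
      rw [inner_add_left, real_inner_smul_left, hab]; ring
    have h2 : (inner ℝ (p + t • a) e : ℝ) = inner ℝ p e := by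
      rw [inner_add_left, real_inner_smul_left, hae]; ring
    have h3 : (inner ℝ (p + t • a) a : ℝ) = inner ℝ p a + t := by
      rw [inner_add_left, real_inner_smul_left, haa]; ring
    have h4 : ‖p + t • a‖ ^ 2 = ‖p‖ ^ 2 + 2 * t * inner ℝ p a + t ^ 2 := by
      rw [norm_add_sq_real, real_inner_smul_right, norm_smul, ha, mul_pow, Real.norm_eq_abs,
        sq_abs]
      ring
    unfold phi x1 s1
    rw [h1, h2, h3, h4]
    congr 3
    ring
  rw [hev]
  simp

private theorem phi_e (n : ℕ) (Ψ : ℝ × ℝ → ℝ) (hΨ : ContDiff ℝ ∞ Ψ) (a b e p : E)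
    (he : ‖e‖ = 1) (hae : (inner ℝ a e : ℝ) = 0) (hbe : (inner ℝ b e : ℝ) = 0)
    (hp : 0 < (inner ℝ p b : ℝ)) :
    fderiv ℝ (phi n Ψ a b e) p e
      = fderiv ℝ Ψ (x1 b e p, s1 a b e p) (1, 0) / (inner ℝ p b : ℝ) ^ (n + 1) := by
  have hd : DifferentiableAt ℝ (phi n Ψ a b e) p :=
    (phi_smooth n Ψ hΨ a b e p hp).differentiableAt (by simp)
  rw [← hd.lineDeriv_eq_fderiv, lineDeriv]
  have hee : (inner ℝ e e : ℝ) = 1 := by rw [real_inner_self_eq_norm_sq, he]; norm_num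
  have hea : (inner ℝ e a : ℝ) = 0 := by rw [real_inner_comm]; exact hae
  have heb : (inner ℝ e b : ℝ) = 0 := by rw [real_inner_comm]; exact hbe
  have hb := hp.ne'
  have hev : (fun t : ℝ => phi n Ψ a b e (p + t • e))
      = fun t => Ψ (x1 b e p + t * (1 / inner ℝ p b), s1 a b e p) / (inner ℝ p b : ℝ) ^ n := by
    funext t
    have h1 : (inner ℝ (p + t • e) b : ℝ) = inner ℝ p b := by
      rw [inner_add_left, real_inner_smul_left, heb]; ring
    have h2 : (inner ℝ (p + t • e) a : ℝ) = inner ℝ p a := by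
      rw [inner_add_left, real_inner_smul_left, hea]; ring
    have h3 : (inner ℝ (p + t • e) e : ℝ) = inner ℝ p e + t := by
      rw [inner_add_left, real_inner_smul_left, hee]; ring
    have h4 : ‖p + t • e‖ ^ 2 = ‖p‖ ^ 2 + 2 * t * inner ℝ p e + t ^ 2 := by
      rw [norm_add_sq_real, real_inner_smul_right, norm_smul, he, mul_pow, Real.norm_eq_abs,
        sq_abs]
      ring
    unfold phi x1 s1
    rw [h1, h2, h3, h4]
    congr 3
    · ring
    · ring
  rw [hev]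
  have h5 : HasDerivAt (fun t : ℝ => ((x1 b e p + t * (1 / inner ℝ p b), s1 a b e p) : ℝ × ℝ))
      (1 / inner ℝ p b, 0) 0 := by
    refine HasDerivAt.prodMk ?_ (hasDerivAt_const _ _)
    have := ((hasDerivAt_id (0 : ℝ)).mul_const (1 / (inner ℝ p b : ℝ))).const_add (x1 b e p)
    simpa using this
  have h6 : HasFDerivAt Ψ (fderiv ℝ Ψ (x1 b e p, s1 a b e p))
      ((fun t : ℝ => ((x1 b e p + t * (1 / inner ℝ p b), s1 a b e p) : ℝ × ℝ)) 0) := by
    have : ((fun t : ℝ => ((x1 b e p + t * (1 / inner ℝ p b), s1 a b e p) : ℝ × ℝ)) 0)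
        = (x1 b e p, s1 a b e p) := by simp
    rw [this]
    exact (hΨ.differentiable (by simp) _).hasFDerivAt
  have h7 := (h6.comp_hasDerivAt (0 : ℝ) h5).div_const ((inner ℝ p b : ℝ) ^ n)
  have h8 : deriv (fun t : ℝ => Ψ (x1 b e p + t * (1 / inner ℝ p b), s1 a b e p)
      / (inner ℝ p b : ℝ) ^ n) 0
      = fderiv ℝ Ψ (x1 b e p, s1 a b e p) (1 / inner ℝ p b, 0) / (inner ℝ p b : ℝ) ^ n :=
    h7.deriv
  rw [h8]
  have h9 : ((1 / (inner ℝ p b : ℝ), (0 : ℝ)) : ℝ × ℝ) = (1 / (inner ℝ p b : ℝ)) • ((1, 0) : ℝ × ℝ) := by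
    ext <;> simp
  rw [h9, map_smul, smul_eq_mul, pow_succ]
  field_simp

end Gen

theorem hFLX (hDVW : StDVW) (hFVJ : StFVJ) (hHHY : StHHY) : StFLX := by
  intro n M _ _ _ _ _ _ _ J F ν c χ hFl hPU t ht a b e ha hb he hab hae hbe hpos Ψ hΨ
  have hH : Hyp n (Real.sqrt (rr n t)) t F ν := hHHY n M J F ν hFl t ht
  set X : EE (n + 2) → EE (n + 2) := fun p => phi n Ψ a b e p • e with hX
  have hXs : ∀ q, ContDiffAt ℝ ∞ X (F q t) := fun q =>
    (phi_smooth n Ψ hΨ a b e (F q t) (hpos q)).smul contDiffAt_const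
  have hXd : ∀ q v, fderiv ℝ X (F q t) v = (fderiv ℝ (phi n Ψ a b e) (F q t) v) • e := by
    intro q v
    have hd : DifferentiableAt ℝ (phi n Ψ a b e) (F q t) :=
      (phi_smooth n Ψ hΨ a b e (F q t) (hpos q)).differentiableAt (by simp)
    have h1 : HasFDerivAt X ((fderiv ℝ (phi n Ψ a b e) (F q t)).smulRight e) (F q t) :=
      hd.hasFDerivAt.smul_const e
    rw [h1.fderiv]
    rfl
  set W : M → EE (n + 2) := fun q => (inner ℝ a (ν q t) : ℝ) • X (F q t)
      - (inner ℝ (X (F q t)) (ν q t) : ℝ) • a with hW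
  have hWs : ContMDiff (𝓡 n) 𝓘(ℝ, EE (n + 2)) 1 W := by
    intro q
    have hG : ContDiffAt ℝ 1 (fun z : EE (n + 2) × EE (n + 2) =>
        (inner ℝ a z.2 : ℝ) • X z.1 - (inner ℝ (X z.1) z.2 : ℝ) • a) (F q t, ν q t) := by
      have hX1 : ContDiffAt ℝ 1 (fun z : EE (n + 2) × EE (n + 2) => X z.1) (F q t, ν q t) := by
        have h0 : ContDiffAt ℝ 1 X (F q t) := (hXs q).of_le (by exact_mod_cast le_top)
        exact ContDiffAt.comp (g := X) (f := fun z : EE (n + 2) × EE (n + 2) => z.1)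
          (F q t, ν q t) h0 contDiffAt_fst
      have h2 : ContDiffAt ℝ 1 (fun z : EE (n + 2) × EE (n + 2) => z.2) (F q t, ν q t) :=
        contDiffAt_snd
      exact ((contDiffAt_const.inner ℝ h2).smul hX1).sub ((hX1.inner ℝ h2).smul contDiffAt_const)
    have hF1 : ContMDiffAt (𝓡 n) 𝓘(ℝ, EE (n + 2)) 1 (fun q => F q t) q :=
      (hH.sF q).of_le (by exact_mod_cast le_top)
    have hν1 : ContMDiffAt (𝓡 n) 𝓘(ℝ, EE (n + 2)) 1 (fun q => ν q t) q :=
      (hH.sν q).of_le (by exact_mod_cast le_top)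
    exact ContMDiffAt.comp (g := fun z : EE (n + 2) × EE (n + 2) =>
        (inner ℝ a z.2 : ℝ) • X z.1 - (inner ℝ (X z.1) z.2 : ℝ) • a)
      (f := fun q => (F q t, ν q t)) q hG.contMDiffAt (hF1.prodMk_space hν1)
  have hset : SetupJ n J F c χ := ⟨hFl.mcf.toIsImmJ, hPU⟩
  have hint := (hFVJ n (n + 2) M J F c χ hset t ht W hWs).2
  refine (integral_congr_ae (Filter.Eventually.of_forall fun q => ?_)).trans hint
  have hdvw := hDVW n M (Real.sqrt (rr n t)) t F ν hH X q a (hXs q) (by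
    rw [hXd q, phi_euler n Ψ hΨ a b e (F q t) (hpos q), hX]
    simp only [smul_smul, neg_smul]) W hW
  rw [hdvw]
  have htr : ∑ i, (inner ℝ (fderiv ℝ X (F q t) (ee i)) (ee i) : ℝ)
      = fderiv ℝ (phi n Ψ a b e) (F q t) e := by
    have h1 : ∀ i : Fin (n + 2), (inner ℝ (fderiv ℝ X (F q t) (ee i)) (ee i) : ℝ)
        = fderiv ℝ (phi n Ψ a b e) (F q t) (e i • ee i) := by
      intro i
      rw [hXd q, real_inner_smul_left, map_smul, smul_eq_mul, mul_comm]
      congr 1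
      simp [ee, EuclideanSpace.inner_single_right]
    rw [Finset.sum_congr rfl fun i _ => h1 i, ← map_sum]
    congr 1
    ext j
    simp [ee, Finset.sum_apply, Pi.single_apply]
  rw [htr, hXd q, phi_a n Ψ hΨ a b e (F q t) ha hab hae (hpos q),
    phi_e n Ψ hΨ a b e (F q t) he hae hbe (hpos q)]
  simp only [zero_smul, inner_zero_left, sub_zero]
  unfold x1 s1
  rw [mul_div_assoc]

end Helper72.HSF
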